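import Mathlib

set_option autoImplicit false

namespace Pool.Agent.Lib.MP_c09033_al

open Topology

universe u v w

/-- `f : G →* H` is semitopological (in the sense of Arnautov): it is continuous and surjective and
there are a topological group `E`, an embedding `i` of the topological group `G` onto a normal
subgroup of `E`, and an open continuous homomorphism `F : E →* H` with `F ∘ i = f`.
The overgroup `E` is taken in the universe `v`. -/
def IsSemitopological {G : Type u} {H : Type w} [Group G] [TopologicalSpace G]
    [Group H] [TopologicalSpace H] (f : G →* H) : Prop :=
  Continuous f ∧ Function.Surjective f ∧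
  ∃ (E : Type v) (_ : Group E) (_ : TopologicalSpace E) (_ : IsTopologicalGroup E)
    (i : G →* E) (F : E →* H),
    IsEmbedding i ∧ i.range.Normal ∧ Continuous F ∧ IsOpenMap F ∧ ∀ g : G, F (i g) = f g

end Pool.Agent.Lib.MP_c09033_al
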