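import Mathlib
import Pool.Agent.Lib.MP_c09033_al.Defs

set_option autoImplicit false

namespace Pool.Agent.Lib.MP_c09033_al

open Topology Pointwise

universe u v w

/-! ### Group topologies from directed families of subgroups -/

section Basis

variable {Γ : Type*} [Group Γ]

/-- A group filter basis made of subgroups. -/
@[instance_reducible]
def subBasis (S : ℕ → Subgroup Γ) (hdir : ∀ m n, ∃ k, S k ≤ S m ⊓ S n)
    (hconj : ∀ (g : Γ) (n : ℕ), ∃ m, ∀ x ∈ S m, g * x * g⁻¹ ∈ S n) : GroupFilterBasis Γ where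
  sets := {U | ∃ n, U = (S n : Set Γ)}
  nonempty := ⟨S 0, 0, rfl⟩
  inter_sets := by
    rintro _ _ ⟨m, rfl⟩ ⟨n, rfl⟩
    obtain ⟨k, hk⟩ := hdir m n
    exact ⟨S k, ⟨k, rfl⟩, fun x hx => ⟨(hk hx).1, (hk hx).2⟩⟩
  one' := by
    rintro _ ⟨n, rfl⟩
    exact (S n).one_mem
  mul' := by
    rintro _ ⟨n, rfl⟩
    refine ⟨S n, ⟨n, rfl⟩, ?_⟩
    rintro _ ⟨x, hx, y, hy, rfl⟩
    exact (S n).mul_mem hx hy
  inv' := by
    rintro _ ⟨n, rfl⟩
    exact ⟨S n, ⟨n, rfl⟩, fun x hx => (S n).inv_mem hx⟩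
  conj' := by
    rintro g _ ⟨n, rfl⟩
    obtain ⟨m, hm⟩ := hconj g n
    exact ⟨S m, ⟨m, rfl⟩, fun x hx => hm x hx⟩

end Basis

/-! ### The rational Heisenberg group -/

/-- The Heisenberg group over `ℚ`. -/
@[ext] structure Heis where
  a : ℚ
  b : ℚ
  c : ℚ

namespace Heis

instance : Mul Heis := ⟨fun x y => ⟨x.a + y.a, x.b + y.b, x.c + y.c + x.a * y.b⟩⟩
instance : One Heis := ⟨⟨0, 0, 0⟩⟩
instance : Inv Heis := ⟨fun x => ⟨-x.a, -x.b, -x.c + x.a * x.b⟩⟩

@[simp] lemma mul_a (x y : Heis) : (x * y).a = x.a + y.a := rfl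
@[simp] lemma mul_b (x y : Heis) : (x * y).b = x.b + y.b := rfl
@[simp] lemma mul_c (x y : Heis) : (x * y).c = x.c + y.c + x.a * y.b := rfl
@[simp] lemma one_a : (1 : Heis).a = 0 := rfl
@[simp] lemma one_b : (1 : Heis).b = 0 := rfl
@[simp] lemma one_c : (1 : Heis).c = 0 := rfl
@[simp] lemma inv_a (x : Heis) : (x⁻¹).a = -x.a := rfl
@[simp] lemma inv_b (x : Heis) : (x⁻¹).b = -x.b := rfl
@[simp] lemma inv_c (x : Heis) : (x⁻¹).c = -x.c + x.a * x.b := rfl

instance : Group Heis :=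
  Group.ofLeftAxioms
    (by intro x y z; ext <;> simp <;> ring)
    (by intro x; ext <;> simp)
    (by intro x; ext <;> simp)

/-- The central subgroup `ℤ` of the Heisenberg group over `ℚ`. -/
def N : Subgroup Heis where
  carrier := {x | x.a = 0 ∧ x.b = 0 ∧ ∃ n : ℤ, x.c = n}
  mul_mem' := by
    rintro x y ⟨h1, h2, n, h3⟩ ⟨h4, h5, m, h6⟩
    refine ⟨by simp [h1, h4], by simp [h2, h5], n + m, by simp [h1, h3, h6]⟩
  one_mem' := ⟨rfl, rfl, 0, by simp⟩
  inv_mem' := by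
    rintro x ⟨h1, h2, n, h3⟩
    refine ⟨by simp [h1], by simp [h2], -n, by simp [h1, h3]⟩

lemma mem_N {x : Heis} : x ∈ N ↔ x.a = 0 ∧ x.b = 0 ∧ ∃ n : ℤ, x.c = n := Iff.rfl

lemma N_central {x : Heis} (hx : x ∈ N) (y : Heis) : x * y = y * x := by
  obtain ⟨h1, h2, n, h3⟩ := hx
  ext
  · simp [h1]
  · simp [h2]
  · simp [h1, h2, add_comm]

instance : N.Normal := ⟨by
  intro x hx g
  have : g * x * g⁻¹ = x := by rw [← N_central hx g]; group
  rwa [this]⟩

/-- The congruence subgroups `{(a,b,c) : a, b ∈ (n+1)ℤ, c ∈ ℤ}`. -/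
def W (n : ℕ) : Subgroup Heis where
  carrier := {x | (∃ k : ℤ, x.a = ((n : ℚ) + 1) * k) ∧ (∃ k : ℤ, x.b = ((n : ℚ) + 1) * k) ∧
    ∃ k : ℤ, x.c = k}
  mul_mem' := by
    rintro x y ⟨⟨k1, h1⟩, ⟨k2, h2⟩, k3, h3⟩ ⟨⟨l1, g1⟩, ⟨l2, g2⟩, l3, g3⟩
    refine ⟨⟨k1 + l1, ?_⟩, ⟨k2 + l2, ?_⟩, k3 + l3 + (n + 1) * k1 * ((n + 1) * l2), ?_⟩
    · simp [h1, g1]; ring
    · simp [h2, g2]; ring
    · simp [h3, g3, h1, g2]
  one_mem' := ⟨⟨0, by simp⟩, ⟨0, by simp⟩, 0, by simp⟩
  inv_mem' := by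
    rintro x ⟨⟨k1, h1⟩, ⟨k2, h2⟩, k3, h3⟩
    refine ⟨⟨-k1, ?_⟩, ⟨-k2, ?_⟩, -k3 + (n + 1) * k1 * ((n + 1) * k2), ?_⟩
    · simp [h1]
    · simp [h2]
    · simp [h3, h1, h2]

lemma mem_W {n : ℕ} {x : Heis} : x ∈ W n ↔ (∃ k : ℤ, x.a = ((n : ℚ) + 1) * k) ∧
    (∃ k : ℤ, x.b = ((n : ℚ) + 1) * k) ∧ ∃ k : ℤ, x.c = k := Iff.rfl

lemma N_le_W (n : ℕ) : N ≤ W n := by
  rintro x ⟨h1, h2, h3⟩
  exact ⟨⟨0, by simp [h1]⟩, ⟨0, by simp [h2]⟩, h3⟩

end Heis

open Heis

/-- The quotient group. -/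
abbrev K : Type := Heis ⧸ Heis.N

/-- The images of the congruence subgroups in the quotient. -/
def V (n : ℕ) : Subgroup K := (W n).map (QuotientGroup.mk' N)

lemma V_dir (m n : ℕ) : ∃ k, V k ≤ V m ⊓ V n := by
  refine ⟨(m + 1) * (n + 1) - 1, ?_⟩
  have h1 : (((m + 1) * (n + 1) - 1 : ℕ) : ℚ) + 1 = ((m : ℚ) + 1) * ((n : ℚ) + 1) := by
    rw [Nat.cast_sub (by nlinarith [Nat.zero_le m, Nat.zero_le n])]
    push_cast
    ring
  have key : ∀ x ∈ W ((m + 1) * (n + 1) - 1), x ∈ W m ∧ x ∈ W n := by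
    rintro x ⟨⟨k1, e1⟩, ⟨k2, e2⟩, k3, e3⟩
    rw [h1] at e1 e2
    refine ⟨⟨⟨(n + 1) * k1, ?_⟩, ⟨(n + 1) * k2, ?_⟩, k3, e3⟩,
      ⟨⟨(m + 1) * k1, ?_⟩, ⟨(m + 1) * k2, ?_⟩, k3, e3⟩⟩
    · rw [e1]; push_cast; ring
    · rw [e2]; push_cast; ring
    · rw [e1]; push_cast; ring
    · rw [e2]; push_cast; ring
  rintro _ ⟨x, hx, rfl⟩
  exact ⟨⟨x, (key x hx).1, rfl⟩, ⟨x, (key x hx).2, rfl⟩⟩

/-- Each element of the quotient commutes with all elements of some `V m`. -/
lemma V_comm (g : K) : ∃ m, ∀ x ∈ V m, g * x = x * g := by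
  obtain ⟨g, rfl⟩ := QuotientGroup.mk'_surjective N g
  refine ⟨g.a.den * g.b.den - 1, ?_⟩
  have hpos : 1 ≤ g.a.den * g.b.den := Nat.mul_pos g.a.pos g.b.pos
  have hm : ((g.a.den * g.b.den - 1 : ℕ) : ℚ) + 1 = (g.a.den : ℚ) * g.b.den := by
    rw [Nat.cast_sub hpos]; push_cast; ring
  rintro _ ⟨x, ⟨⟨k1, e1⟩, ⟨k2, e2⟩, k3, e3⟩, rfl⟩
  rw [hm] at e1 e2
  rw [← map_mul, ← map_mul]
  show ((g * x : Heis) : K) = ((x * g : Heis) : K)
  rw [QuotientGroup.eq]
  have ha : (g.a.den : ℚ) * g.a = g.a.num := by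
    rw [mul_comm]; exact Rat.mul_den_eq_num g.a
  have hb : (g.b.den : ℚ) * g.b = g.b.num := by
    rw [mul_comm]; exact Rat.mul_den_eq_num g.b
  refine ⟨by simp; ring, by simp; ring, g.a.den * g.b.num * k1 - g.a.num * g.b.den * k2, ?_⟩
  simp only [mul_c, inv_c, mul_a, inv_a, mul_b, e1, e2]
  push_cast
  rw [← ha, ← hb]
  ring

lemma V_conj (g : K) (n : ℕ) : ∃ m, ∀ x ∈ V m, g * x * g⁻¹ ∈ V n := by
  obtain ⟨m, hm⟩ := V_comm g
  obtain ⟨k, hk⟩ := V_dir m n
  refine ⟨k, fun x hx => ?_⟩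
  rw [hm x (hk hx).1]
  simpa using (hk hx).2

lemma V_sep (x : K) (hx : ∀ n, x ∈ V n) : x = 1 := by
  obtain ⟨g, rfl⟩ := QuotientGroup.mk'_surjective N x
  have hg : ∀ n, g ∈ W n := by
    intro n
    obtain ⟨y, hy, hyg⟩ := hx n
    have h2 : y⁻¹ * g ∈ N := QuotientGroup.eq.1 hyg
    have h3 : g = y * (y⁻¹ * g) := by group
    rw [h3]
    exact (W n).mul_mem hy (N_le_W n h2)
  have aux : ∀ q : ℚ, (∀ n : ℕ, ∃ k : ℤ, q = ((n : ℚ) + 1) * k) → q = 0 := by
    intro q hq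
    obtain ⟨j, hj⟩ := hq 0
    have hj' : q = j := by simpa using hj
    obtain ⟨k, hk⟩ := hq (j.natAbs)
    rw [hj'] at hk
    have hk2 : j = ((j.natAbs : ℤ) + 1) * k := by
      have h0 : ((j.natAbs : ℕ) : ℚ) = (((j.natAbs : ℕ) : ℤ) : ℚ) := (Int.cast_natCast _).symm
      rw [h0] at hk
      exact_mod_cast hk
    have hk0 : k = 0 := by
      by_contra hne
      have h1 : 1 ≤ |k| := Int.one_le_abs hne
      have h2 : |j| = (|j| + 1) * |k| := by
        have h3 := congrArg abs hk2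
        rw [abs_mul] at h3
        rw [Int.natCast_natAbs] at h3
        rw [abs_of_nonneg (by positivity : (0:ℤ) ≤ |j| + 1)] at h3
        exact h3
      nlinarith [abs_nonneg j]
    rw [hj', hk2, hk0]
    simp
  have hmem : g ∈ N := by
    refine ⟨aux g.a fun n => (hg n).1, aux g.b fun n => (hg n).2.1, (hg 0).2.2⟩
  show ((g : Heis) : K) = 1
  exact (QuotientGroup.eq_one_iff g).2 hmem

/-- The group `K` with the topology having the `V n` as a basis at the identity. -/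
def H : Type := K

instance : Group H := inferInstanceAs (Group K)

/-- The filter basis defining the topology of `H`. -/
@[instance_reducible]
def basisH : GroupFilterBasis H := subBasis (Γ := K) V V_dir V_conj

instance : TopologicalSpace H := basisH.topology

instance : IsTopologicalGroup H := basisH.isTopologicalGroup

lemma mem_nhds_H {U : Set H} : U ∈ 𝓝 (1 : H) ↔ ∃ n, ((V n : Set K) : Set H) ⊆ U := by
  rw [basisH.nhds_one_hasBasis.mem_iff]
  constructor
  · rintro ⟨_, ⟨n, rfl⟩, h⟩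
    exact ⟨n, h⟩
  · rintro ⟨n, h⟩
    exact ⟨_, ⟨n, rfl⟩, h⟩

instance : T2Space H := by
  refine IsTopologicalGroup.t2Space_of_one_sep fun x hx => ?_
  by_contra hcon
  push Not at hcon
  apply hx
  exact V_sep x fun n => hcon _ (mem_nhds_H.2 ⟨n, subset_rfl⟩)

/-- The identity map from (discrete) `K` to `H`. -/
def f₂ : K →* H := MonoidHom.id K

/-! ### `f₂` is semitopological -/

/-- The diagonal copies of `V n` in `K × K`. -/
def D (n : ℕ) : Subgroup (K × K) where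
  carrier := {p | p.1 = p.2 ∧ p.1 ∈ V n}
  mul_mem' := by
    rintro p q ⟨h1, h2⟩ ⟨h3, h4⟩
    exact ⟨by simp [h1, h3], (V n).mul_mem h2 h4⟩
  one_mem' := ⟨rfl, (V n).one_mem⟩
  inv_mem' := by
    rintro p ⟨h1, h2⟩
    exact ⟨by simp [h1], (V n).inv_mem h2⟩

lemma D_dir (m n : ℕ) : ∃ k, D k ≤ D m ⊓ D n := by
  obtain ⟨k, hk⟩ := V_dir m n
  exact ⟨k, fun p hp => ⟨⟨hp.1, (hk hp.2).1⟩, ⟨hp.1, (hk hp.2).2⟩⟩⟩

lemma D_conj (g : K × K) (n : ℕ) : ∃ m, ∀ x ∈ D m, g * x * g⁻¹ ∈ D n := by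
  obtain ⟨m1, h1⟩ := V_comm g.1
  obtain ⟨m2, h2⟩ := V_comm g.2
  obtain ⟨k1, hk1⟩ := V_dir m1 m2
  obtain ⟨k, hk⟩ := V_dir k1 n
  refine ⟨k, fun x hx => ?_⟩
  obtain ⟨hx1, hx2⟩ := hx
  have e1 : x.1 ∈ V m1 := (hk1 (hk hx2).1).1
  have e2 : x.2 ∈ V m2 := hx1 ▸ (hk1 (hk hx2).1).2
  have e3 : g * x * g⁻¹ = x := by
    ext
    · show g.1 * x.1 * g.1⁻¹ = x.1
      rw [h1 _ e1]; simp
    · show g.2 * x.2 * g.2⁻¹ = x.2
      rw [h2 _ e2]; simp
  rw [e3]
  exact ⟨hx1, (hk hx2).2⟩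

/-- The overgroup witnessing that `f₂` is semitopological. -/
def E₀ : Type := K × K

instance : Group E₀ := inferInstanceAs (Group (K × K))

/-- The filter basis of `E₀`. -/
@[instance_reducible]
def basisE : GroupFilterBasis E₀ := subBasis (Γ := K × K) D D_dir D_conj

instance : TopologicalSpace E₀ := basisE.topology

instance : IsTopologicalGroup E₀ := basisE.isTopologicalGroup

lemma mem_nhds_E {U : Set E₀} : U ∈ 𝓝 (1 : E₀) ↔ ∃ n, ((D n : Set (K × K)) : Set E₀) ⊆ U := by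
  rw [basisE.nhds_one_hasBasis.mem_iff]
  constructor
  · rintro ⟨_, ⟨n, rfl⟩, h⟩
    exact ⟨n, h⟩
  · rintro ⟨n, h⟩
    exact ⟨_, ⟨n, rfl⟩, h⟩

/-- The first factor embedding. -/
def i₀ : K →* E₀ := MonoidHom.inl K K

/-- The first projection. -/
def F₀ : E₀ →* H := MonoidHom.fst K K

lemma i₀_apply (k : K) : (i₀ k : K × K) = (k, 1) := rfl

lemma mem_range_i₀ {p : E₀} : p ∈ i₀.range ↔ (p : K × K).2 = 1 := by
  constructor
  · rintro ⟨k, rfl⟩
    rfl
  · intro h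
    exact ⟨(p : K × K).1, Prod.ext rfl h.symm⟩

lemma normal_i₀ : i₀.range.Normal := by
  refine ⟨fun p hp g => ?_⟩
  rw [mem_range_i₀] at hp ⊢
  show (g : K × K).2 * (p : K × K).2 * ((g : K × K).2)⁻¹ = 1
  rw [hp]
  simp

lemma discrete_range : ∃ O ∈ 𝓝 (1 : E₀), ∀ k : K, i₀ k ∈ O → k = 1 := by
  refine ⟨_, mem_nhds_E.2 ⟨0, subset_rfl⟩, ?_⟩
  intro k hk
  exact hk.1

lemma embedding_i₀ [TopologicalSpace K] [DiscreteTopology K] : IsEmbedding i₀ := by
  have hinj : Function.Injective i₀ := by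
    intro x y hxy
    have : ((i₀ x : E₀) : K × K).1 = ((i₀ y : E₀) : K × K).1 := by rw [hxy]
    exact this
  refine ⟨⟨?_⟩, hinj⟩
  obtain ⟨O, hO, hO1⟩ := discrete_range
  obtain ⟨O', hO'1, hO'2, hO'3⟩ := mem_nhds_iff.1 hO
  rw [DiscreteTopology.eq_bot (α := K)]
  symm
  refine eq_bot_of_singletons_open fun x => ?_
  refine ⟨(fun y => i₀ x⁻¹ * y) ⁻¹' O', hO'2.preimage (continuous_const_mul (i₀ x⁻¹)), ?_⟩
  ext y
  simp only [Set.mem_preimage, Set.mem_singleton_iff]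
  constructor
  · intro h
    rw [← map_mul] at h
    have := hO1 _ (hO'1 h)
    exact (inv_mul_eq_one.1 this).symm
  · rintro rfl
    rw [← map_mul]
    simpa using hO'3

lemma continuous_F₀ : Continuous F₀ := by
  refine continuous_of_continuousAt_one F₀ ?_
  intro U hU
  rw [map_one] at hU
  obtain ⟨n, hn⟩ := mem_nhds_H.1 hU
  refine mem_nhds_E.2 ⟨n, ?_⟩
  intro p hp
  exact hn hp.2

lemma isOpenMap_F₀ : IsOpenMap F₀ := by
  refine IsTopologicalGroup.isOpenMap_iff_nhds_one.2 ?_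
  intro U hU
  obtain ⟨n, hn⟩ := mem_nhds_E.1 (Filter.mem_map.1 hU)
  refine mem_nhds_H.2 ⟨n, ?_⟩
  intro x hx
  exact hn (show ((x, x) : K × K) ∈ D n from ⟨rfl, hx⟩)

lemma f₂_semitopological [TopologicalSpace K] [DiscreteTopology K] :
    IsSemitopological.{0, 0, 0} f₂ :=
  ⟨continuous_of_discreteTopology, fun x => ⟨x, rfl⟩, E₀, inferInstance, inferInstance,
    inferInstance, i₀, F₀, embedding_i₀, normal_i₀, continuous_F₀, isOpenMap_F₀, fun _ => rfl⟩

/-! ### The composition is not semitopological -/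

instance : TopologicalSpace Heis := ⊥
instance : DiscreteTopology Heis := ⟨rfl⟩

/-- The (open) quotient map. -/
def f₁ : Heis →* K := QuotientGroup.mk' N

lemma f₁_open : IsOpenMap f₁ := QuotientGroup.isOpenMap_coe

lemma f₁_cont : Continuous f₁ := continuous_of_discreteTopology

lemma f₁_surj : Function.Surjective f₁ := QuotientGroup.mk'_surjective N

instance : DiscreteTopology K := by
  refine discreteTopology_of_isOpen_singleton_one ?_
  have h := f₁_open _ (isOpen_discrete ({1} : Set Heis))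
  rw [Set.image_singleton, map_one] at h
  exact h

/-- Powers in the abelian subgroup `b = 0`. -/
lemma pow_b_zero (x : Heis) (hx : x.b = 0) (m : ℕ) : x ^ m = ⟨m * x.a, 0, m * x.c⟩ := by
  induction m with
  | zero => ext <;> simp
  | succ m ih =>
    rw [pow_succ, ih]
    ext
    · simp; ring
    · simp [hx]
    · simp [hx]; ring

lemma not_semitopological : ¬ IsSemitopological.{0, v, 0} (f₂.comp f₁) := by
  rintro ⟨-, -, E, _, _, _, i, F, hi, hn, hFc, hFo, hF⟩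
  -- the element `g` and its centraliser
  set g : Heis := ⟨1, 0, 0⟩ with hg
  set S : Set E := {y | y * i g * y⁻¹ = i g} with hS
  have hSopen : IsOpen S := by
    obtain ⟨O, hO, hOg⟩ := hi.isInducing.isOpen_iff.1 (isOpen_discrete ({g} : Set Heis))
    have h1 : S = (fun y : E => y * i g * y⁻¹) ⁻¹' O := by
      ext y
      simp only [hS, Set.mem_ofPred_eq, Set.mem_preimage]
      constructor
      · intro h
        rw [h]
        have : g ∈ i ⁻¹' O := by rw [hOg]; rfl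
        exact this
      · intro h
        obtain ⟨x, hx⟩ := hn.conj_mem (i g) ⟨g, rfl⟩ y
        have h2 : x ∈ i ⁻¹' O := by
          show i x ∈ O
          rw [hx]; exact h
        rw [hOg] at h2
        rw [← hx, show x = g from h2]
    rw [h1]
    exact hO.preimage (by fun_prop)
  have h1S : (1 : E) ∈ S := by simp [hS]
  have hFS : F '' S ∈ 𝓝 (1 : H) := by
    refine (hFo S hSopen).mem_nhds ⟨1, h1S, map_one F⟩
  obtain ⟨n, hn2⟩ := mem_nhds_H.1 hFS
  -- the element `b`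
  set b : Heis := ⟨0, n + 1, 0⟩ with hb
  have hbV : (f₁ b : K) ∈ V n := by
    refine ⟨b, ⟨⟨0, by simp [hb]⟩, ⟨1, by simp [hb]⟩, 0, by simp [hb]⟩, rfl⟩
  obtain ⟨y, hyS, hyb⟩ := hn2 hbV
  set l : E := y * (i b)⁻¹ with hl
  have hFl : F l = 1 := by
    rw [hl, map_mul, map_inv, hyb, hF]
    exact mul_inv_cancel _
  -- conjugation by `l`
  have hconj : ∀ x : Heis, ∃ z : Heis, i z = l * i x * l⁻¹ := by
    intro x
    obtain ⟨z, hz⟩ := hn.conj_mem (i x) ⟨x, rfl⟩ l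
    exact ⟨z, hz⟩
  choose ψ hψ using hconj
  have hψN : ∀ x, x⁻¹ * ψ x ∈ N := by
    intro x
    have h1 : F (i (ψ x)) = F (i x) := by
      rw [hψ, map_mul, map_mul, map_inv, hFl]; simp
    rw [hF, hF] at h1
    exact QuotientGroup.eq.1 h1.symm
  have hψpow : ∀ (x : Heis) (m : ℕ), ψ (x ^ m) = ψ x ^ m := by
    intro x m
    apply hi.injective
    rw [hψ, map_pow, map_pow, hψ, conj_pow]
  have hroot : ∀ (x : Heis), x.b = 0 → ψ x = x := by
    intro x hx
    obtain ⟨-, -, k, hk⟩ := hψN x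
    -- an `m`-th root of `x`
    set m : ℕ := k.natAbs + 1 with hm
    have hm0 : (m : ℚ) ≠ 0 := by rw [hm]; positivity
    set z : Heis := ⟨x.a / m, 0, x.c / m⟩ with hz
    have hzm : z ^ m = x := by
      rw [pow_b_zero z rfl m]
      ext
      · show (m : ℚ) * (x.a / m) = x.a
        field_simp
      · exact hx.symm
      · show (m : ℚ) * (x.c / m) = x.c
        field_simp
    have h1 : ψ x = ψ z ^ m := by rw [← hψpow, hzm]
    have hzN := hψN z
    have h2 : z * (z⁻¹ * ψ z) = ψ z := by group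
    have h3 : ψ x = x * (z⁻¹ * ψ z) ^ m := by
      have h4 : Commute z (z⁻¹ * ψ z) := (N_central hzN z).symm
      rw [h1, ← hzm, ← h4.mul_pow, h2]
    obtain ⟨e1, e2, j, e3⟩ := hzN
    have h4 : (z⁻¹ * ψ z) ^ m = ⟨0, 0, m * j⟩ := by
      rw [pow_b_zero _ e2 m, e1, e3]
      simp
    have h5 : x⁻¹ * ψ x = ⟨0, 0, m * j⟩ := by
      rw [h3, h4]; group
    have h6 : (k : ℚ) = m * j := by
      rw [← hk, h5]
    have h7 : k = (m : ℤ) * j := by exact_mod_cast h6
    have hj0 : j = 0 := by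
      by_contra hne
      have h8 : 1 ≤ |j| := Int.one_le_abs hne
      have h9 : |k| = (|k| + 1) * |j| := by
        have h10 := congrArg abs h7
        rw [abs_mul] at h10
        have h11 : |(m : ℤ)| = |k| + 1 := by
          rw [hm]; push_cast
          rw [abs_of_nonneg (by positivity)]
        rwa [h11] at h10
      nlinarith [abs_nonneg k]
    have h8 : x⁻¹ * ψ x = 1 := by
      rw [h5, hj0]
      ext <;> simp
    exact (inv_mul_eq_one.1 h8).symm
  -- conclusion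
  have hy : y = l * i b := by rw [hl]; group
  have h1 : y * i g * y⁻¹ = i (b * g * b⁻¹) := by
    have h2 : y * i g * y⁻¹ = l * i (b * g * b⁻¹) * l⁻¹ := by
      rw [hy]; simp only [map_mul, map_inv]; group
    rw [h2, ← hψ, hroot _ (by simp [hb, hg])]
  have h2 : i (b * g * b⁻¹) = i g := by
    rw [← h1]; exact hyS
  have h3 := congrArg Heis.c (hi.injective h2)
  simp [hb, hg] at h3
  have h4 : (0 : ℚ) < (n : ℚ) + 1 := by positivity
  linarith

theorem main :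
    ∃ (G K H : Type) (_ : Group G) (_ : Group K) (_ : Group H)
      (_ : TopologicalSpace G) (_ : TopologicalSpace K) (_ : TopologicalSpace H)
      (_ : IsTopologicalGroup G) (_ : IsTopologicalGroup K) (_ : IsTopologicalGroup H)
      (f₁ : G →* K) (f₂ : K →* H),
      -- separation and size: all three groups are Hausdorff, the first two are discrete
      DiscreteTopology G ∧ DiscreteTopology K ∧ T2Space H ∧ Countable G ∧
      -- `G` is nilpotent of class at most two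
      (∀ x y z : G, (x * y * x⁻¹ * y⁻¹) * z = z * (x * y * x⁻¹ * y⁻¹)) ∧
      -- `f₁` is an open continuous surjective homomorphism
      Continuous f₁ ∧ IsOpenMap f₁ ∧ Function.Surjective f₁ ∧
      -- `f₂` is a semitopological isomorphism
      Function.Bijective f₂ ∧ IsSemitopological.{0, 0, 0} f₂ ∧
      -- the composition is a continuous surjective homomorphism that is not semitopological
      Continuous (f₂.comp f₁) ∧ Function.Surjective (f₂.comp f₁) ∧
      ¬ IsSemitopological.{0, v, 0} (f₂.comp f₁) := by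
  refine ⟨Heis, K, H, inferInstance, inferInstance, inferInstance, inferInstance, inferInstance,
    inferInstance, inferInstance, inferInstance, inferInstance, f₁, f₂, inferInstance,
    inferInstance, inferInstance, ?_, ?_, f₁_cont, f₁_open, f₁_surj, Function.bijective_id,
    f₂_semitopological, continuous_of_discreteTopology, ?_, not_semitopological⟩
  · have hinj : Function.Injective (fun x : Heis => (x.a, x.b, x.c)) := by
      intro x y hxy
      simp only [Prod.mk.injEq] at hxy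
      exact Heis.ext hxy.1 hxy.2.1 hxy.2.2
    exact hinj.countable
  · intro x y z
    ext
    · simp
    · simp
    · simp; ring
  · exact f₁_surj

end Pool.Agent.Lib.MP_c09033_al
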